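import Pool.Agent.MWBN.Stmts

/-!
# Block MWBN, row B2N
-/

namespace Pool.Agent.MWBN.H30

open Pool.Agent.Helper14_MV Pool.Agent.Helper2_MV Pool.Agent.MVO Pool.Agent.MWL

theorem b2n (h1 : MWS.XcbStmt) (h2 : DsnStmt) (h3 : XbnStmt) : B2nStmt :=
  fun n β h => h2 n MWS.VB β h1.1 (h3 n β h)

end Pool.Agent.MWBN.H30

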